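import Pool.Agent.Lib_helper67.HCS.Core

/-!
# MP_89ac68_lc: non-singular unsatisfiable hitting clause-sets of fixed deficiency

A non-singular unsatisfiable hitting clause-set of deficiency at most `k` has at most
`(4 k^3 + 9 k^2 + 11 k) / 6` variables. For every `k` there are, up to isomorphism, only finitely many
of them, even if isomorphisms are not allowed to complement variables.
-/

set_option autoImplicit false

namespace Pool.Agent.Results.MP_89ac68_lc.EveryDeficiency

open Pool.Agent.Lib_helper67.HCS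

theorem result (V : Type) (k : ℕ) :
    (∀ F : ClauseSet V, ¬ F.Satisfiable → F.Hitting → F.NonSingular → F.deficiency ≤ k →
      6 * F.n ≤ 4 * k ^ 3 + 9 * k ^ 2 + 11 * k) ∧
    ∃ 𝒢 : Set (ClauseSet V), 𝒢.Finite ∧
      (∀ G ∈ 𝒢, ¬ G.Satisfiable ∧ G.Hitting ∧ G.NonSingular ∧ G.deficiency ≤ k) ∧
      ∀ F : ClauseSet V, ¬ F.Satisfiable → F.Hitting → F.NonSingular → F.deficiency ≤ k →
        ∃ G ∈ 𝒢, F.Isomorphic G :=
  ⟨fun _ h1 h2 h3 hk => ClauseSet.core_bound ⟨h1, h2, h3⟩ hk, ClauseSet.finite_classes V k⟩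

end Pool.Agent.Results.MP_89ac68_lc.EveryDeficiency
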